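import Mathlib
import Pool.Agent.H617.SP.J4
import Pool.Agent.H617.SP.J8

/-!
Sign patterns of the Liouville function of `K[X]`, `K` a finite field of odd characteristic, at
values with boundedly many prime factors: linear forms (without any condition of admissibility,
the fixed divisors being prescribed) and intervals.
-/

open Polynomial

namespace Pool.Agent.Results.MP_52aa73_nt.PatternsWithFewFactorsOddChar

open Classical in
/-- The Möbius function of `K[X]`: `(-1) ^ k` if `F` is a nonzero constant times a product of `k`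
distinct monic irreducible polynomials, and `0` otherwise. -/
noncomputable def moebius {K : Type} [Field K] (F : K[X]) : ℤ :=
  if Squarefree F then (-1) ^ Multiset.card (UniqueFactorizationMonoid.factors F) else 0

open Classical in
/-- The Liouville function of `K[X]`: `(-1) ^ k` if `F` is a nonzero constant times a product of `k`
monic irreducible polynomials, counted with multiplicity, and `0` for `F = 0`. -/
noncomputable def liouville {K : Type} [Field K] (F : K[X]) : ℤ :=
  if F = 0 then 0 else (-1) ^ Multiset.card (UniqueFactorizationMonoid.factors F)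

/-- The number of irreducible factors of `F`, counted with multiplicity. -/
noncomputable def numFactors {K : Type} [Field K] (F : K[X]) : ℕ :=
  Multiset.card (UniqueFactorizationMonoid.factors F)

/-- Let `p` be an odd prime and `K` a finite field of characteristic `p` with `q` elements.
(1) For every `k ≥ 1` there are `r`, `C` and `δ > 0` such that for all `D`, all `n ≥ C (D + 1)`, all
`a i ≠ 0`, `b i`, `c` in `K[X]` (`i < k`), no two of the forms `a i * T + b i` proportional, with
`c`, all `a i` and all `a i * c + b i` of degree at most `D` and all `a i * c + b i` nonzero, and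
for all signs `σ i`, at least `δ q ^ (⌊n / p⌋ - C (D + 1)) / n ^ k` monic `f` of degree `n` have
the property: `a i * f + b i = (a i * c + b i) * G i` with `G i` prime to `a i * c + b i`,
a product of at most `r` distinct irreducibles, each of degree at least `n / r`, and
`μ (G i) = σ i`.
(2) For every `m` there are `R`, `N` and `δ > 0` such that for all `n ≥ N` and all signs `ε h` there
are at least `δ q ^ ⌊n / p⌋ / n ^ (q ^ m)` monic `A` of degree `n` such that for all the `q ^ m`
polynomials `h` of degree less than `m`: `λ (A + h) = ε h` and `A + h` has at most `R` irreducible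
factors, counted with multiplicity. -/
theorem result (p : ℕ) (hp : p.Prime) (hp2 : p ≠ 2) (K : Type) [Field K] [Fintype K] [CharP K p]
    (q : ℕ) (hq : Fintype.card K = q) :
    (∀ k : ℕ, 0 < k → ∃ (r C : ℕ) (δ : ℝ), 0 < δ ∧ ∀ D n : ℕ, C * (D + 1) ≤ n →
      ∀ (a b : Fin k → K[X]) (c : K[X]), (∀ i, a i ≠ 0) →
      (∀ i j, i ≠ j → a i * b j ≠ a j * b i) → c.natDegree ≤ D →
      (∀ i, (a i).natDegree ≤ D ∧ (a i * c + b i).natDegree ≤ D ∧ a i * c + b i ≠ 0) →
      ∀ σ : Fin k → ℤ, (∀ i, σ i = 1 ∨ σ i = -1) →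
        ∃ S : Finset K[X], δ * (q : ℝ) ^ (n / p - C * (D + 1)) / (n : ℝ) ^ k ≤ S.card ∧
          ∀ f ∈ S, f.Monic ∧ f.natDegree = n ∧ ∀ i, ∃ G : K[X],
            a i * f + b i = (a i * c + b i) * G ∧ IsCoprime (a i * c + b i) G ∧
            moebius G = σ i ∧ numFactors G ≤ r ∧
            ∀ P : K[X], Irreducible P → P ∣ G → n ≤ r * P.natDegree) ∧
    (∀ m : ℕ, ∃ (R N : ℕ) (δ : ℝ), 0 < δ ∧ ∀ n : ℕ, N ≤ n →
      ∀ ε : K[X] → ℤ, (∀ h, ε h = 1 ∨ ε h = -1) →
        ∃ S : Finset K[X], δ * (q : ℝ) ^ (n / p) / (n : ℝ) ^ (q ^ m) ≤ S.card ∧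
          ∀ A ∈ S, A.Monic ∧ A.natDegree = n ∧
            ∀ h : K[X], h.degree < (m : WithBot ℕ) →
              liouville (A + h) = ε h ∧ numFactors (A + h) ≤ R) := by
  have : Fact p.Prime := ⟨hp⟩
  subst hq
  have h2 : (2 : K) ≠ 0 := Pool.Agent.H617.SP.two_ne p hp2
  refine ⟨?_, ?_⟩
  · intro k hk
    obtain ⟨R, C, δ, hδ, hR⟩ := Pool.Agent.H617.SP.translated_ap p hp2 K k hk
    refine ⟨R, C, δ, hδ, ?_⟩
    intro D n hn a b c ha hab hcD hD σ hσ
    obtain ⟨S, hS1, hS2⟩ := hR D n hn a b c ha (fun i j hij => sub_ne_zero.mpr (hab i j hij)) hcD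
      hD (fun i => if σ i = 1 then 0 else 1)
    refine ⟨S, hS1, fun f hf => ?_⟩
    obtain ⟨hf1, hf2, hf3⟩ := hS2 f hf
    refine ⟨hf1, hf2, fun i => ?_⟩
    obtain ⟨G, h3, h4, h5, h6, h7, h8⟩ := hf3 i
    refine ⟨G, h3, h5, ?_, h7, h6⟩
    rw [moebius, if_pos h4]
    exact Pool.Agent.H617.SP.sign_of h2 _ _ (hσ i) h8
  · intro m
    obtain ⟨R, N, δ, hδ, hR⟩ := Pool.Agent.H617.SP.intervals_ap p hp2 K m
    refine ⟨R, N, δ, hδ, ?_⟩
    intro n hn ε hε
    obtain ⟨S, hS1, hS2⟩ := hR n hn (fun h : K[X] => if ε h = 1 then 0 else 1)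
    refine ⟨S, hS1, fun f hf => ?_⟩
    obtain ⟨h3, h4, h5⟩ := hS2 f hf
    refine ⟨h3, h4, fun h hh => ?_⟩
    obtain ⟨h6, h7, h8, -⟩ := h5 h hh
    refine ⟨?_, h8⟩
    rw [liouville, if_neg h6]
    refine h7.trans ?_
    rcases hε h with h9 | h9
    · rw [h9]; simp
    · rw [h9]; norm_num

end Pool.Agent.Results.MP_52aa73_nt.PatternsWithFewFactorsOddChar
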